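import Pool.Agent.W102.GI.Defs

set_option autoImplicit false

namespace Pool.Agent.W264.GI

open Finset

theorem mc_rec (a m : ℕ) :
    (m + 1) * Nat.multichoose a (m + 1) = (a + m) * Nat.multichoose a m := by
  cases a with
  | zero =>
    cases m with
    | zero => simp
    | succ k => simp
  | succ a =>
    rw [Nat.multichoose_eq, Nat.multichoose_eq]
    have h1 : a + 1 + (m + 1) - 1 = (a + m) + 1 := by omega
    have h2 : a + 1 + m - 1 = a + m := by omega
    rw [h1, h2]
    have h := Nat.add_one_mul_choose_eq (a + m) m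
    have h3 : a + 1 + m = a + m + 1 := by omega
    rw [h3, h, Nat.mul_comm]

theorem sum_even (g : ℕ → ℚ) (hg : ∀ k, ¬ Even k → g k = 0) (n : ℕ) :
    ∑ k ∈ range (n + 1), g k = ∑ j ∈ range (n / 2 + 1), g (2 * j) := by
  induction n with
  | zero => simp
  | succ n ih =>
    rw [sum_range_succ, ih]
    by_cases h : Even (n + 1)
    · obtain ⟨t, ht⟩ := h
      have h1 : (n + 1) / 2 = n / 2 + 1 := by omega
      rw [h1, sum_range_succ _ (n / 2 + 1)]
      congr 2
      omega
    · rw [hg _ h, add_zero]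
      have h1 : (n + 1) / 2 = n / 2 := by
        rw [Nat.not_even_iff_odd] at h
        obtain ⟨t, ht⟩ := h
        omega
      rw [h1]

noncomputable def PA (a : ℕ) : PowerSeries ℚ := PowerSeries.mk (fun m => (Nat.multichoose a m : ℚ))

noncomputable def PB (b : ℕ) : PowerSeries ℚ :=
  PowerSeries.mk (fun m => if Even m then (Nat.multichoose b (m / 2) : ℚ) else 0)

open PowerSeries in
theorem PA_de (a : ℕ) : (1 - X) * (d⁄dX ℚ (PA a)) = (a : PowerSeries ℚ) * PA a := by
  ext m
  rw [sub_mul, one_mul, map_sub]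
  have ha : (a : PowerSeries ℚ) = C (a : ℚ) := by simp
  rw [ha, coeff_C_mul]
  cases m with
  | zero =>
    rw [coeff_zero_X_mul, coeff_derivative]
    have := mc_rec a 0
    have h2 : ((0 + 1 : ℕ) : ℚ) * (Nat.multichoose a (0 + 1) : ℚ) = ((a + 0 : ℕ) : ℚ) * (Nat.multichoose a 0 : ℚ) := by
      exact_mod_cast this
    simp only [PA, coeff_mk]
    push_cast at h2 ⊢
    linarith
  | succ k =>
    rw [coeff_succ_X_mul, coeff_derivative, coeff_derivative]
    have h2 : ((k + 1 + 1 : ℕ) : ℚ) * (Nat.multichoose a (k + 1 + 1) : ℚ)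
        = ((a + (k + 1) : ℕ) : ℚ) * (Nat.multichoose a (k + 1) : ℚ) := by
      exact_mod_cast mc_rec a (k + 1)
    simp only [PA, coeff_mk]
    push_cast at h2 ⊢
    linarith

open PowerSeries in
theorem PB_de (b : ℕ) : (1 - X ^ 2) * (d⁄dX ℚ (PB b)) = C (2 * (b : ℚ)) * X * PB b := by
  ext m
  rw [sub_mul, one_mul, map_sub, mul_assoc, coeff_C_mul]
  cases m with
  | zero =>
    rw [coeff_zero_X_mul, coeff_derivative, coeff_X_pow_mul']
    simp [PB, coeff_mk]
  | succ k =>
    rw [coeff_succ_X_mul, coeff_derivative, coeff_X_pow_mul']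
    cases k with
    | zero =>
      have h2 : ((0 + 1 : ℕ) : ℚ) * (Nat.multichoose b (0 + 1) : ℚ) = ((b + 0 : ℕ) : ℚ) * (Nat.multichoose b 0 : ℚ) := by
        exact_mod_cast mc_rec b 0
      have e2 : Even (0 + 1 + 1) := by decide
      simp only [PB, coeff_mk, if_pos e2, if_pos Even.zero]
      push_cast at h2 ⊢
      norm_num at h2 ⊢
      ring
    | succ j =>
      have h12 : 2 ≤ j + 1 + 1 := by omega
      rw [if_pos h12]
      have h13 : j + 1 + 1 - 2 = j := by omega
      rw [h13, coeff_derivative]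
      simp only [PB, coeff_mk]
      by_cases he : Even (j + 1)
      · have he3 : Even (j + 1 + 1 + 1) := by
          have : j + 1 + 1 + 1 = (j + 1) + 2 := by ring
          rw [this]; exact he.add even_two
        rw [if_pos he, if_pos he3]
        obtain ⟨t, ht⟩ := he
        have h5 : (j + 1 + 1 + 1) / 2 = t + 1 := by omega
        have h6 : (j + 1) / 2 = t := by omega
        rw [h5, h6]
        have h2 : ((t + 1 : ℕ) : ℚ) * (Nat.multichoose b (t + 1) : ℚ)
            = ((b + t : ℕ) : ℚ) * (Nat.multichoose b t : ℚ) := by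
          exact_mod_cast mc_rec b t
        have hj : (j : ℚ) + 1 = 2 * t := by
          have : ((j + 1 : ℕ) : ℚ) = ((t + t : ℕ) : ℚ) := by rw [ht]
          push_cast at this
          linarith
        push_cast at h2 ⊢
        have e1 : (j : ℚ) + 1 + 1 + 1 = 2 * (t + 1) := by linarith
        rw [e1, hj]
        linear_combination 2 * h2
      · have he3 : ¬ Even (j + 1 + 1 + 1) := by
          intro h
          apply he
          have : j + 1 + 1 + 1 = (j + 1) + 2 := by ring
          rw [this] at h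
          exact (Nat.even_add.1 h).2 even_two
        rw [if_neg he, if_neg he3]
        ring

theorem coeff_F (n r : ℕ) :
    PowerSeries.coeff n (PB (r ^ 2) * PA (2 * r + 1)) = (Pool.Agent.W102.GI.F n r : ℚ) := by
  rw [PowerSeries.coeff_mul, Finset.Nat.sum_antidiagonal_eq_sum_range_succ_mk,
    sum_even (fun k => PowerSeries.coeff k (PB (r ^ 2)) * PowerSeries.coeff (n - k) (PA (2 * r + 1)))]
  · unfold Pool.Agent.W102.GI.F
    push_cast
    apply Finset.sum_congr rfl
    intro j _
    have he : Even (2 * j) := even_two_mul j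
    simp only [PB, PA, PowerSeries.coeff_mk, if_pos he]
    have : 2 * j / 2 = j := by omega
    rw [this, mul_comm]
  · intro k hk
    simp only [PB, PowerSeries.coeff_mk, if_neg hk, zero_mul]

open PowerSeries in
theorem FREC : Pool.Agent.W102.GI.FREC := by
  intro n r
  have key : (1 - X ^ 2) * (d⁄dX ℚ (PB (r ^ 2) * PA (2 * r + 1)))
      = (C (2 * (r : ℚ) + 1) + C (2 * (r : ℚ) ^ 2 + 2 * r + 1) * X) * (PB (r ^ 2) * PA (2 * r + 1)) := by
    rw [Derivation.leibniz, smul_eq_mul, smul_eq_mul]
    have h1 := PA_de (2 * r + 1)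
    have h2 := PB_de (r ^ 2)
    have ha : ((2 * r + 1 : ℕ) : PowerSeries ℚ) = C (2 * (r : ℚ) + 1) := by
      have h3 : (2 * (r : ℚ) + 1) = ((2 * r + 1 : ℕ) : ℚ) := by push_cast; ring
      rw [h3, map_natCast]
    rw [ha] at h1
    have hC : (C (2 * (r : ℚ) ^ 2 + 2 * r + 1) : PowerSeries ℚ)
        = C (2 * (((r ^ 2 : ℕ)) : ℚ)) + C (2 * (r : ℚ) + 1) := by
      rw [← map_add]
      congr 1
      push_cast
      ring
    rw [hC]
    linear_combination (1 + X) * PB (r ^ 2) * h1 + PA (2 * r + 1) * h2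
  have hc := congrArg (coeff (n + 1)) key
  rw [sub_mul, one_mul, map_sub, add_mul, map_add, coeff_C_mul, mul_assoc, coeff_C_mul,
    coeff_succ_X_mul, coeff_derivative, coeff_F, coeff_F, coeff_F, coeff_X_pow_mul'] at hc
  have hlast : (if 2 ≤ n + 1 then coeff (n + 1 - 2) (d⁄dX ℚ (PB (r ^ 2) * PA (2 * r + 1))) else 0)
      = (n : ℚ) * (Pool.Agent.W102.GI.F n r : ℚ) := by
    cases n with
    | zero => simp
    | succ m =>
      have h1 : 2 ≤ m + 1 + 1 := by omega
      have h2 : m + 1 + 1 - 2 = m := by omega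
      rw [if_pos h1, h2, coeff_derivative, coeff_F]
      push_cast
      ring
  rw [hlast] at hc
  have : (((n + 2) * Pool.Agent.W102.GI.F (n + 2) r : ℕ) : ℚ)
      = (((2 * r + 1) * Pool.Agent.W102.GI.F (n + 1) r
        + (2 * r ^ 2 + 2 * r + n + 1) * Pool.Agent.W102.GI.F n r : ℕ) : ℚ) := by
    push_cast at hc ⊢
    linear_combination hc
  exact_mod_cast this

end Pool.Agent.W264.GI

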